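import Pool.Agent.Helper79.TL.Defs2
import Pool.Agent.Helper91.TL.A1
import Pool.Agent.Helper87.TL.A2
import Pool.Agent.Helper65.TL.A3
import Pool.Agent.Helper12.TL.A4
import Pool.Agent.Helper71.TL.A5
import Pool.Agent.Helper85.TL.A6
import Pool.Agent.Helper76.TL.A7
import Pool.Agent.Helper79.TLP.B3
import Pool.Agent.Helper88.TL.B4
import Pool.Agent.Helper54.TL.B5
import Pool.Agent.Helper41.TL.C1
import Pool.Agent.Helper51.TL.C2
import Pool.Agent.Helper79.TLP.C3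
import Pool.Agent.Helper59.TL.C5

/-!
# Wiring of the pieces A, B, C
-/

set_option autoImplicit false
set_option linter.unusedSectionVars false

open Module Matrix
open scoped MatrixGroups
open Pool.Agent.Helper31.Brauer

namespace Pool.Agent.Helper79.TL

section A

theorem exists_eigen {K : Type} [Field K] {M : Type} [AddCommGroup M] [Module K M]
    (t : Module.End K M) (ht : t ^ 5 = 1) (ht1 : t ≠ 1) (h5 : (5 : K) ≠ 0) (ζ : K) (hζ : ζ ^ 5 = 1)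
    (hζ1 : ζ ≠ 1) : ∃ (ξ : K) (v : M), ξ ^ 5 = 1 ∧ ξ ≠ 1 ∧ v ≠ 0 ∧ t v = ξ • v :=
  A1.exists_eigen t ht ht1 h5 ζ hζ hζ1

theorem kside_triv {M : Type} [AddCommGroup M] [Module ℂ M] [Nontrivial M]
    {t s : Module.End ℂ M} {Y : Fin 3 → Module.End ℂ M} (h : HMod t s Y) (ht : t = 1) :
    ∃ m : M, m ≠ 0 ∧ (Zop t Y m = (112 : ℂ) • m ∨ Zop t Y m = (352 : ℂ) • m) :=
  A2.kside_triv h ht

theorem kside_nontriv {M : Type} [AddCommGroup M] [Module ℂ M] [FiniteDimensional ℂ M]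
    {t s : Module.End ℂ M} {Y : Fin 3 → Module.End ℂ M} (h : HMod t s Y)
    (hle : finrank ℂ M ≤ 2) (ζ : ℂ) (hζ : ζ ^ 5 = 1) (hζ1 : ζ ≠ 1) (v : M) (hv : v ≠ 0)
    (htv : t v = ζ • v) : False :=
  A3.kside_nontriv h hle ζ hζ hζ1 v hv htv

variable {F : Type} [Field F] [CharP F 3] {M : Type} [AddCommGroup M] [Module F M]
  {t s : Module.End F M} {Y : Fin 3 → Module.End F M}

theorem fside_triv [Nontrivial M] (h : HMod t s Y) (ht : t = 1) (hZ : Zop t Y = 0)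
    (hgen : ∀ u : M, u ≠ 0 → Gen t s Y u) : finrank F M ≤ 1 :=
  A4.fside_triv h ht hZ hgen

theorem fside_exists (h : HMod t s Y) (hZ : Zop t Y = 0) (ξ : F) (hξ : ξ ^ 5 = 1) (hξ1 : ξ ≠ 1)
    (v : M) (hv : v ≠ 0) (htv : t v = ξ • v) :
    ∃ w : M, w ≠ 0 ∧ t w = ξ • w ∧ Pr t ξ (Y 0 w) = (ξ + ξ ^ 4) • w ∧
      Pr t ξ (Y 1 w) = (- (1 + (ξ + ξ ^ 4))) • w ∧ Pr t ξ (Y 2 w) = - w :=
  A5.fside_exists h hZ ξ hξ hξ1 v hv htv

theorem fside_Y0 (h : HMod t s Y) (hgen : ∀ u : M, u ≠ 0 → Gen t s Y u) (ξ : F) (hξ : ξ ^ 5 = 1)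
    (hξ1 : ξ ≠ 1) (w : M) (hw : w ≠ 0) (htw : t w = ξ • w)
    (h0 : Pr t ξ (Y 0 w) = (ξ + ξ ^ 4) • w) (h1 : Pr t ξ (Y 1 w) = (- (1 + (ξ + ξ ^ 4))) • w)
    (h2 : Pr t ξ (Y 2 w) = - w) : Y 0 (w + s w) = (- (ξ + ξ ^ 4)) • (w + s w) :=
  A6.fside_Y0 h hgen ξ hξ hξ1 w hw htw h0 h1 h2

theorem fside_dim (h : HMod t s Y) (ξ : F) (hξ : ξ ^ 5 = 1) (hξ1 : ξ ≠ 1)
    (w : M) (hw : w ≠ 0) (htw : t w = ξ • w) (hgen : Gen t s Y w)
    (h0 : Y 0 (w + s w) = (- (ξ + ξ ^ 4)) • (w + s w)) : finrank F M ≤ 2 :=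
  A7.fside_dim h ξ hξ hξ1 w hw htw hgen h0

end A

section B

variable {K : Type} [Field K] {G : Type} [Group G] {D : GPre G} {V : Type} [AddCommGroup V]
  [Module K V] (ρ : Representation K G V) (hD : D.Good)

open GPre

theorem hmod (h2 : (2 : K) ≠ 0) : HMod (tM ρ hD) (sM ρ hD) (YM ρ hD) :=
  B3.hmod ρ hD h2

theorem gen_of_irreducible [hρ : ρ.IsIrreducible] (h2 : (2 : K) ≠ 0) (u : ↥(D.Vl ρ)) (hu : u ≠ 0) :
    Gen (tM ρ hD) (sM ρ hD) (YM ρ hD) u :=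
  B4.gen_of_irreducible ρ hD h2 u hu

theorem Zformula [Fintype G] (h2 : (2 : K) ≠ 0) (m : ↥(D.Vl ρ)) :
    ∑ g : G, ρ g (D.E ρ (ρ g⁻¹ (m : V))) =
      (160 : K) • ((Zop (tM ρ hD) (YM ρ hD) m : ↥(D.Vl ρ)) : V) :=
  B5.Zformula ρ hD h2 m

end B

section C

open GPre

variable {G : Type} [Group G]

theorem brauer_Vl {F : Type} [Field F] [CharP F 3] (red : AlgInt →+* F) {D : GPre G} (hD : D.Good)
    {V : Type} [AddCommGroup V] [Module F V] [FiniteDimensional F V] (ρ : Representation F G V) :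
    ∑ a, (brauerValue 3 red ρ (D.r a) - brauerValue 3 red ρ (D.z * D.r a)) =
      32 * (finrank F ↥(D.Vl ρ) : ℂ) :=
  C1.brauer_Vl red hD ρ

theorem char_Vl {D : GPre G} (hD : D.Good)
    {V : Type} [AddCommGroup V] [Module ℂ V] [FiniteDimensional ℂ V] (ρ : Representation ℂ G V) :
    ∑ a, (ρ.character (D.r a) - ρ.character (D.z * D.r a)) = 32 * (finrank ℂ ↥(D.Vl ρ) : ℂ) :=
  C2.char_Vl hD ρ

theorem sum_E_of_classSum [Fintype G] {F : Type} [Field F] {D : GPre G} {V : Type} [AddCommGroup V]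
    [Module F V] (ρ : Representation F G V) (lam : G → F)
    (hlam : ∀ g, classSum ρ g = lam g • (LinearMap.id : V →ₗ[F] V)) (m : V) :
    ∑ g : G, ρ g (D.E ρ (ρ g⁻¹ m)) = Lam D lam • m :=
  C3.sum_E_of_classSum ρ lam hlam m

theorem classSum_scalar [Fintype G] {F : Type} [Field F] (red : AlgInt →+* F) (lam : G → F)
    {n : ℕ} (ρ : Representation ℂ G (Fin n → ℂ)) (hρ : ρ.IsIrreducible)
    (hB : ρ.character ∈ IrrB red lam) :
    ∃ Z : G → AlgInt, (∀ g, red (Z g) = lam g) ∧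
      ∀ g, classSum ρ g = (Z g : ℂ) • (LinearMap.id : (Fin n → ℂ) →ₗ[ℂ] (Fin n → ℂ)) :=
  C5.classSum_scalar red lam ρ hρ hB

end C

end Pool.Agent.Helper79.TL
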