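import Pool.Agent.Helper79.TL.G4
import Pool.Agent.Helper28.TL.G1
import Pool.Agent.Helper23.TL.G2
import Pool.Agent.Helper23.TL.G6
import Pool.Agent.Helper12.TL.G3

/-!
# Wiring of the pieces G1, G2, G3, G4, G6
-/

set_option autoImplicit false

open Module

namespace Pool.Agent.Helper79.TL

theorem lB_ok : ∀ b : GPre.BI, lB.getD (iB b) 0 = cB b := G1.lB_ok

theorem lH_ok : ∀ p : GPre.HI, lH.getD (iH p) 0 = chel p := G1.lH_ok

theorem lT_ok : ∀ (i : Fin 11) (b : GPre.BI),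
    mulN (cgen i) (cB b) = mulN (cB (dB ((lT.getD i []).getD (iB b) (0, 0)).1))
      (chel (dH ((lT.getD i []).getD (iB b) (0, 0)).2)) := G1.lT_ok

theorem B_val (b : GPre.BI) : ((D0.B b : U) : Matrix (Fin 6) (Fin 6) (ZMod 3)) = toM (cB b) :=
  G2.B_val b

theorem hel_val (p : GPre.HI) :
    ((D0.hel p : U) : Matrix (Fin 6) (Fin 6) (ZMod 3)) = toM (chel p) := G2.hel_val p

theorem goodPre_D0_a : (∀ g, D0.z * g = g * D0.z) ∧ D0.z * D0.z = 1 ∧ D0.r 0 = 1 ∧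
    Function.Injective D0.r ∧ (∀ a b, ∃ c, D0.r a * D0.r b = D0.r c) ∧
    (∀ a, D0.r a * D0.r a = 1) ∧ D0.t ^ 5 = 1 ∧ D0.s * D0.s = 1 ∧ D0.s * D0.t = D0.t ^ 4 * D0.s ∧
    (∀ a, ∃ b, D0.t * D0.r a = D0.r b * D0.t) ∧ (∀ a, ∃ b, D0.s * D0.r a = D0.r b * D0.s) ∧
    (∀ j, ∃ a b, D0.s * D0.x j = D0.r a * D0.x j * D0.r b * D0.s) ∧
    (∀ j, D0.x j * D0.x j = 1) := G3.goodPre_D0_a

theorem goodPre_D0 : GoodPre D0 := by
  obtain ⟨h1, h2, h3, h4, h5, h6, h7, h8, h9, h10, h11, h12, h13⟩ := goodPre_D0_a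
  exact
    { z_comm := h1, z_sq := h2, r_zero := h3, r_inj := h4, r_mul := h5, r_sq := h6, t_pow := h7,
      s_sq := h8, s_t := h9, t_r := h10, s_r := h11, s_x := h12, x_sq := h13, x_s := G4.x_s,
      w_O := G4.w_O, rel000 := G4.rel000, rel100 := G4.rel100, rel101 := G4.rel101,
      rel202 := G4.rel202, rel010 := G4.rel010, rel020 := G4.rel020, rel110 := G4.rel110,
      rel120 := G4.rel120, rel210 := G4.rel210, rel220 := G4.rel220 }

theorem inj0 : Function.Injective (fun p : GPre.BI × GPre.HI => D0.B p.1 * D0.hel p.2) := G6.inj0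

end Pool.Agent.Helper79.TL
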