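import Pool.Agent.Helper79.TL.Psl

/-!
# The second component of `EE`
-/

set_option autoImplicit false

open Matrix
open scoped MatrixGroups

namespace Pool.Agent.Helper79.TL

/-- the second component -/
def prU : (SL(3, F4) × U × Equiv.Perm (Fin 21)) →* U :=
  (MonoidHom.fst U (Equiv.Perm (Fin 21))).comp (MonoidHom.snd SL(3, F4) (U × Equiv.Perm (Fin 21)))

lemma prU_apply (x : SL(3, F4) × U × Equiv.Perm (Fin 21)) : prU x = x.2.1 := rfl

lemma EE_map : EE.map prU = GG := by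
  rw [EE, MonoidHom.map_closure, GG]
  apply le_antisymm
  · rw [Subgroup.closure_le]
    rintro _ ⟨x, hx | hx, rfl⟩
    · obtain ⟨i, rfl⟩ := hx
      exact Subgroup.subset_closure ⟨i, rfl⟩
    · rw [Set.mem_singleton_iff] at hx
      subst hx
      exact Subgroup.one_mem _
  · rw [Subgroup.closure_le]
    rintro _ ⟨i, rfl⟩
    exact Subgroup.subset_closure ⟨(AA i, genU i, sg i), Or.inl ⟨i, rfl⟩, rfl⟩

theorem EE_mem_GG : (∀ x ∈ EE, x.2.1 ∈ GG) ∧ ∀ g ∈ GG, ∃ x ∈ EE, x.2.1 = g := by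
  refine ⟨fun x hx => ?_, fun g hg => ?_⟩
  · rw [← EE_map]
    exact ⟨x, hx, rfl⟩
  · rw [← EE_map] at hg
    obtain ⟨x, hx, rfl⟩ := hg
    exact ⟨x, hx, rfl⟩

end Pool.Agent.Helper79.TL
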