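import Pool.Agent.Helper79.TL.W3
import Pool.Agent.Helper79.TL.S5a
import Pool.Agent.Helper79.TLP.G5
import Pool.Agent.Helper93.TL.S1
import Pool.Agent.Helper12.TL.S4

/-!
# Wiring of the pieces G5, S1, S4
-/

set_option autoImplicit false

open Matrix
open scoped MatrixGroups

namespace Pool.Agent.Helper79.TL

theorem cover : ∀ g ∈ GG, ∃ b p, g = D0.B b * D0.hel p := G5.cover

theorem compat_gen (i : Fin 11) : Compat (AA i) (genU i) (sg i) := S1.compat_gen i

theorem compat_EE : ∀ x ∈ EE, Compat x.1 x.2.1 x.2.2 := S1.compat_EE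

theorem alpha_surj : ∀ A : SL(3, F4), ∃ x ∈ EE, x.1 = A := S4.alpha_surj

end Pool.Agent.Helper79.TL
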