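import Pool.Agent.Helper79.TL.Core
import Pool.Agent.Helper31.BrauerLift

/-!
# Further definitions
-/

set_option autoImplicit false
set_option linter.unusedSectionVars false

open Module Matrix
open Pool.Agent.Helper31.Brauer

namespace Pool.Agent.Helper79.TL

section

variable {F : Type} [Field F] {M : Type} [AddCommGroup M] [Module F M]

/-- (minus) the sum of `ξ^{-k} t^k`: the projection onto the `ξ`-eigenspace of `t` -/
def Pr (t : Module.End F M) (ξ : F) : Module.End F M :=
  - ∑ k ∈ Finset.range 5, ξ ^ (4 * k) • t ^ k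

end

/-- the scalar by which the central element `∑_{g, a} g (r a) g⁻¹` acts -/
noncomputable def Lam {G : Type} [Group G] [Fintype G] {F : Type} [Field F] (D : GPre G)
    (lam : G → F) : F :=
  ∑ a, (Nat.card ↥(Subgroup.centralizer {D.r a}) : F) * lam (D.r a)

/-- the sign of `r a` at the coordinate `i`: coordinates `0, …, 3` are the binary digits of `a`,
coordinate `4` makes the number of signs even, coordinate `5` has no sign -/
def sgn (a : Fin 16) : Fin 6 → ℤ :=
  ![(-1) ^ ((a : ℕ) / 1 % 2), (-1) ^ ((a : ℕ) / 2 % 2), (-1) ^ ((a : ℕ) / 4 % 2),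
    (-1) ^ ((a : ℕ) / 8 % 2),
    (-1) ^ ((a : ℕ) / 1 % 2 + (a : ℕ) / 2 % 2 + (a : ℕ) / 4 % 2 + (a : ℕ) / 8 % 2), 1]

/-- `N` behaves like the natural 6-dimensional module. -/
structure NatRep {G : Type} [Group G] (D : GPre G) {F : Type} [Field F]
    (N : Representation F G (Fin 6 → F)) : Prop where
  z : ∀ v, N D.z v = -v
  r : ∀ a v i, N (D.r a) v i = (sgn a i : F) * v i
  t : ∀ v i, N D.t v i = v ((![4, 0, 1, 2, 3, 5] : Fin 6 → Fin 6) i)
  w : ∀ v i, N D.w v i = v ((![5, 4, 2, 3, 1, 0] : Fin 6 → Fin 6) i)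
  x : ∀ j, N (D.x j) (Pi.single 5 1) 5 = (![1, 1, 0] : Fin 3 → F) j

end Pool.Agent.Helper79.TL
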