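import Pool.Agent.Helper79.TL.W1
import Pool.Agent.Helper79.TLP.D1
import Pool.Agent.Helper79.TLP.D2
import Pool.Agent.Helper79.TLP.E1

/-!
# Wiring of the pieces D, E1
-/

set_option autoImplicit false
set_option linter.unusedSectionVars false

open Module Matrix
open Pool.Agent.Helper31.Brauer

namespace Pool.Agent.Helper79.TL

section D

open GPre

variable {G : Type} [Group G] {D : GPre G} {F : Type} [Field F] [CharP F 3]
  {N : Representation F G (Fin 6 → F)}

theorem nat_irreducible (hD : D.Good) (hN : NatRep D N) : N.IsIrreducible :=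
  D1.nat_irreducible hD hN

theorem nat_scalar (hD : D.Good) (hN : NatRep D N) (X : (Fin 6 → F) →ₗ[F] (Fin 6 → F))
    (hX : ∀ g : G, X ∘ₗ N g = N g ∘ₗ X) :
    ∃ c : F, X = c • (LinearMap.id : (Fin 6 → F) →ₗ[F] (Fin 6 → F)) :=
  D1.nat_scalar hD hN X hX

theorem nat_Lam [Fintype G] (hD : D.Good) (hN : NatRep D N) (lam : G → F)
    (hlam : ∀ g, classSum N g = lam g • (LinearMap.id : (Fin 6 → F) →ₗ[F] (Fin 6 → F))) :
    Lam D lam = 0 :=
  D2.nat_Lam hD hN lam hlam

theorem nat_finrank (hD : D.Good) (hN : NatRep D N) : finrank F ↥(D.Vl N) = 1 :=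
  D1.nat_finrank hD hN

end D

section E

open GPre

variable {G : Type} [Group G] [Fintype G] {D : GPre G}

theorem dim_F {F : Type} [Field F] [CharP F 3] (red : AlgInt →+* F)
    (hred : Function.Surjective red) (hD : D.Good) (lam : G → F) (hlam0 : Lam D lam = 0)
    {n : ℕ} (ρ : Representation F G (Fin n → F)) (hρ : ρ.IsIrreducible)
    (hρl : ∀ g, classSum ρ g = lam g • (LinearMap.id : (Fin n → F) →ₗ[F] (Fin n → F))) :
    finrank F ↥(D.Vl ρ) ≤ 2 :=
  E1.dim_F red hred hD lam hlam0 ρ hρ hρl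

theorem dim_C {F : Type} [Field F] [CharP F 3] (red : AlgInt →+* F) (hD : D.Good)
    (lam : G → F) (hlam0 : Lam D lam = 0)
    {n : ℕ} (ρ : Representation ℂ G (Fin n → ℂ)) (hρ : ρ.IsIrreducible)
    (hB : ρ.character ∈ IrrB red lam) :
    finrank ℂ ↥(D.Vl ρ) = 0 ∨ 3 ≤ finrank ℂ ↥(D.Vl ρ) :=
  E1.dim_C red hD lam hlam0 ρ hρ hB

end E

end Pool.Agent.Helper79.TL
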