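import Mathlib

/-!
# The double cover of PSL(3,4): combinatorial data and Hecke operators

`GPre G` collects some elements of a group `G`, and `GPre.Good` the relations between them which
hold in the double cover `G` of `PSL(3, 4)` (order 40320), realised inside `GL(6, 3)`:
`z = -1`, `r : Fin 16 → G` are the diagonal matrices with an even number of signs on the first five
coordinates, `t` and `s` the permutation matrices of `i ↦ i + 1` and `i ↦ -i` (`i` mod 5; the sixth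
coordinate is fixed), `w` another permutation matrix, `x 0, x 1, x 2` three involutions.

For a representation `ρ` of `G` the space `Vl` is the set of `v` with `r a v = v` and `z v = -v`;
it carries the operators `t`, `s` and the Hecke operators `Y j v = ∑ a, r a (x j v)`.
-/

set_option autoImplicit false
set_option linter.unusedSectionVars false

open Module

namespace Pool.Agent.Helper79.TL

/-- Types of group elements. -/
inductive Ty : Type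
  /-- the elements `z ^ ε * r a * t ^ k * s ^ e` -/
  | H (ε k e : ℕ) : Ty
  /-- the elements `z ^ ε * r a * t ^ k * x l * t ^ n * r b` -/
  | X (ε k : ℕ) (l : Fin 3) (n : ℕ) : Ty
  /-- the elements `g` with `r a * g = g * (z * r b)` for some `a`, `b` -/
  | O : Ty

/-- types of the sixteen elements `x 0 * t ^ 0 * r m * x 0` -/
def T000 : Fin 16 → Ty :=
  ![.H 0 0 0, .X 1 0 2 0, .O, .X 1 0 2 0, .X 1 0 1 0, .X 1 0 0 0, .X 1 0 1 0, .X 0 0 0 0,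
    .X 1 0 1 0, .X 1 0 0 0, .X 1 0 1 0, .X 0 0 0 0, .H 0 0 1, .X 0 0 2 0, .O, .X 0 0 2 0]

/-- types of the sixteen elements `x 1 * t ^ 0 * r m * x 0` -/
def T100 : Fin 16 → Ty :=
  ![.O, .X 1 0 0 0, .O, .X 1 0 0 0, .X 0 0 2 0, .X 1 0 1 0, .X 1 0 2 0, .X 1 0 1 0,
    .X 1 0 2 0, .X 1 0 1 0, .X 0 0 2 0, .X 1 0 1 0, .O, .X 1 0 0 0, .O, .X 1 0 0 0]

/-- types of the sixteen elements `x 1 * t ^ 0 * r m * x 1` -/
def T101 : Fin 16 → Ty :=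
  ![.H 0 0 0, .X 1 0 1 0, .H 0 0 1, .X 1 0 1 0, .X 1 0 0 0, .X 1 0 2 0, .X 1 0 0 0, .X 0 0 2 0,
    .X 1 0 0 0, .X 1 0 2 0, .X 1 0 0 0, .X 0 0 2 0, .O, .X 0 0 1 0, .O, .X 0 0 1 0]

/-- types of the sixteen elements `x 2 * t ^ 0 * r m * x 2` -/
def T202 : Fin 16 → Ty :=
  ![.H 0 0 0, .X 1 0 0 0, .O, .X 1 0 0 0, .X 1 0 2 0, .X 1 0 1 0, .X 1 0 2 0, .X 0 0 1 0,
    .X 1 0 2 0, .X 1 0 1 0, .X 1 0 2 0, .X 0 0 1 0, .O, .X 0 0 0 0, .H 1 0 1, .X 0 0 0 0]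

/-- types of the sixteen elements `x 0 * t ^ 1 * r m * x 0` -/
def T010 : Fin 16 → Ty :=
  ![.X 0 1 1 3, .X 0 2 1 4, .X 1 1 0 1, .X 0 2 2 2, .X 1 4 0 1, .X 1 3 2 2, .X 0 4 1 3, .X 0 3 1 4,
    .X 1 4 0 4, .X 0 3 2 3, .X 0 4 1 2, .X 0 3 1 1, .X 0 1 1 2, .X 0 2 1 1, .X 1 1 0 4, .X 1 2 2 3]

/-- types of the sixteen elements `x 0 * t ^ 2 * r m * x 0` -/
def T020 : Fin 16 → Ty :=
  ![.X 0 4 2 2, .X 1 1 1 4, .X 1 4 1 4, .X 1 1 2 2, .X 1 2 0 2, .X 1 3 2 4, .X 0 2 2 4, .X 1 3 0 2,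
    .X 1 2 0 3, .X 0 3 2 1, .X 1 2 2 1, .X 1 3 0 3, .X 1 4 2 3, .X 1 1 1 1, .X 1 4 1 1, .X 0 1 2 3]

/-- types of the sixteen elements `x 1 * t ^ 1 * r m * x 0` -/
def T110 : Fin 16 → Ty :=
  ![.X 1 4 0 3, .X 0 2 0 4, .X 1 4 2 1, .X 0 2 1 2, .X 0 3 0 1, .X 1 1 0 2, .X 0 3 1 3, .X 1 1 2 4,
    .X 0 3 0 4, .X 1 1 0 3, .X 0 3 1 2, .X 0 1 2 1, .X 1 4 0 2, .X 0 2 0 1, .X 0 4 2 4, .X 0 2 1 3]

/-- types of the sixteen elements `x 1 * t ^ 2 * r m * x 0` -/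
def T120 : Fin 16 → Ty :=
  ![.X 1 3 2 2, .X 0 4 0 4, .X 0 3 1 4, .X 1 4 1 2, .X 0 2 2 2, .X 0 1 0 4, .X 0 2 1 4, .X 1 1 1 2,
    .X 1 2 2 3, .X 0 1 0 1, .X 0 2 1 1, .X 1 1 1 3, .X 0 3 2 3, .X 0 4 0 1, .X 0 3 1 1, .X 1 4 1 3]

/-- types of the sixteen elements `x 2 * t ^ 1 * r m * x 0` -/
def T210 : Fin 16 → Ty :=
  ![.X 1 3 0 3, .X 1 2 2 4, .X 0 3 2 1, .X 0 2 0 2, .X 1 1 1 1, .X 1 4 2 2, .X 0 1 2 3, .X 0 4 1 4,
    .X 1 1 1 4, .X 0 4 2 3, .X 1 1 2 2, .X 0 4 1 1, .X 1 3 0 2, .X 0 2 2 1, .X 1 3 2 4, .X 0 2 0 3]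

/-- types of the sixteen elements `x 2 * t ^ 2 * r m * x 0` -/
def T220 : Fin 16 → Ty :=
  ![.X 0 1 0 2, .X 0 3 0 4, .X 0 1 2 4, .X 0 3 1 2, .X 1 2 1 2, .X 0 4 2 4, .X 1 2 0 4, .X 1 4 0 2,
    .X 1 2 1 3, .X 1 4 2 1, .X 1 2 0 1, .X 1 4 0 3, .X 0 1 0 3, .X 0 3 0 1, .X 1 1 2 1, .X 0 3 1 3]

/-- representatives for the double cosets: `r (cc j i) * x j` -/
def cc : Fin 3 → Fin 8 → Fin 16 :=
  ![![0, 1, 2, 3, 4, 5, 6, 7], ![0, 1, 4, 5, 8, 9, 12, 13], ![0, 1, 2, 3, 4, 5, 6, 7]]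

/-- some elements of a group -/
structure GPre (G : Type) [Group G] where
  /-- the central involution -/
  z : G
  /-- the group `R` of order 16 -/
  r : Fin 16 → G
  /-- an element of order 5 -/
  t : G
  /-- an involution inverting `t` -/
  s : G
  /-- three involutions -/
  x : Fin 3 → G
  /-- an involution -/
  w : G

namespace GPre

variable {G : Type} [Group G] (D : GPre G)

/-- `g` is an element of the given type -/
def Is (g : G) : Ty → Prop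
  | .H ε k e => ∃ a, g = D.z ^ ε * D.r a * D.t ^ k * D.s ^ e
  | .X ε k l n => ∃ a b, g = D.z ^ ε * D.r a * D.t ^ k * D.x l * D.t ^ n * D.r b
  | .O => ∃ a b, D.r a * g = g * (D.z * D.r b)

/-- The index set of the 126 cosets. -/
abbrev BI : Type := Option (Fin 5) ⊕ (Fin 3 × Fin 5 × Fin 8)

/-- The index set of the subgroup of order 320. -/
abbrev HI : Type := Fin 2 × Fin 16 × Fin 5 × Fin 2

/-- coset representatives -/
def B : BI → G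
  | .inl none => 1
  | .inl (some k) => D.t ^ (k : ℕ) * D.w
  | .inr (j, k, i) => D.t ^ (k : ℕ) * (D.r (cc j i) * D.x j)

/-- the elements of the subgroup of order 320 -/
def hel (p : HI) : G := D.z ^ (p.1 : ℕ) * D.r p.2.1 * D.t ^ (p.2.2.1 : ℕ) * D.s ^ (p.2.2.2 : ℕ)

/-- The relations between the elements. -/
structure Good : Prop where
  z_comm : ∀ g, D.z * g = g * D.z
  z_sq : D.z * D.z = 1
  r_zero : D.r 0 = 1
  r_inj : Function.Injective D.r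
  r_mul : ∀ a b, ∃ c, D.r a * D.r b = D.r c
  r_sq : ∀ a, D.r a * D.r a = 1
  t_pow : D.t ^ 5 = 1
  s_sq : D.s * D.s = 1
  s_t : D.s * D.t = D.t ^ 4 * D.s
  t_r : ∀ a, ∃ b, D.t * D.r a = D.r b * D.t
  s_r : ∀ a, ∃ b, D.s * D.r a = D.r b * D.s
  s_x : ∀ j, ∃ a b, D.s * D.x j = D.r a * D.x j * D.r b * D.s
  x_sq : ∀ j, D.x j * D.x j = 1
  x_s : ∀ j, D.Is (D.x j * D.s) (.X (if j = 2 then 1 else 0) 0 j 0)
  w_O : ∀ k : Fin 5, D.Is (D.t ^ (k : ℕ) * D.w) .O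
  rel000 : ∀ m, D.Is (D.x 0 * D.r m * D.x 0) (T000 m)
  rel100 : ∀ m, D.Is (D.x 1 * D.r m * D.x 0) (T100 m)
  rel101 : ∀ m, D.Is (D.x 1 * D.r m * D.x 1) (T101 m)
  rel202 : ∀ m, D.Is (D.x 2 * D.r m * D.x 2) (T202 m)
  rel010 : ∀ m, D.Is (D.x 0 * D.t ^ 1 * D.r m * D.x 0) (T010 m)
  rel020 : ∀ m, D.Is (D.x 0 * D.t ^ 2 * D.r m * D.x 0) (T020 m)
  rel110 : ∀ m, D.Is (D.x 1 * D.t ^ 1 * D.r m * D.x 0) (T110 m)
  rel120 : ∀ m, D.Is (D.x 1 * D.t ^ 2 * D.r m * D.x 0) (T120 m)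
  rel210 : ∀ m, D.Is (D.x 2 * D.t ^ 1 * D.r m * D.x 0) (T210 m)
  rel220 : ∀ m, D.Is (D.x 2 * D.t ^ 2 * D.r m * D.x 0) (T220 m)
  bij : Function.Bijective (fun p : BI × HI => D.B p.1 * D.hel p.2)

section Rep

variable {K : Type} [Field K] {V : Type} [AddCommGroup V] [Module K V]
variable (ρ : Representation K G V)

lemma rho_mul (g h : G) (v : V) : ρ (g * h) v = ρ g (ρ h v) := by
  rw [map_mul]; rfl

/-- The vectors fixed by the `r a` and negated by `z`. -/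
def Vl : Submodule K V where
  carrier := {v | (∀ a, ρ (D.r a) v = v) ∧ ρ D.z v = -v}
  add_mem' := by
    rintro u v ⟨hu1, hu2⟩ ⟨hv1, hv2⟩
    refine ⟨fun a => by rw [map_add, hu1, hv1], ?_⟩
    rw [map_add, hu2, hv2, neg_add]
  zero_mem' := ⟨fun a => map_zero _, by rw [map_zero, neg_zero]⟩
  smul_mem' := by
    rintro c v ⟨hv1, hv2⟩
    refine ⟨fun a => by rw [map_smul, hv1], ?_⟩
    rw [map_smul, hv2, smul_neg]

lemma mem_Vl {v : V} : v ∈ D.Vl ρ ↔ (∀ a, ρ (D.r a) v = v) ∧ ρ D.z v = -v := Iff.rfl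

/-- the sum of the `r a` -/
def E : V →ₗ[K] V := ∑ a, ρ (D.r a)

lemma E_apply (v : V) : D.E ρ v = ∑ a, ρ (D.r a) v := by
  rw [E, LinearMap.sum_apply]

variable {D} (hD : D.Good)
include hD

lemma r_E (a : Fin 16) (v : V) : ρ (D.r a) (D.E ρ v) = D.E ρ v := by
  choose c hc using hD.r_mul a
  have hinj : Function.Injective c := fun b b' h => by
    apply hD.r_inj
    have h1 : D.r a * D.r b = D.r a * D.r b' := by rw [hc, hc, h]
    exact mul_left_cancel h1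
  rw [E_apply, map_sum, ← (Equiv.ofBijective c (Finite.injective_iff_bijective.1 hinj)).sum_comp
    (fun b => ρ (D.r b) v)]
  refine Finset.sum_congr rfl fun b _ => ?_
  rw [← rho_mul, hc]; rfl

lemma E_r (a : Fin 16) (v : V) : D.E ρ (ρ (D.r a) v) = D.E ρ v := by
  choose c hc using fun b => hD.r_mul b a
  have hinj : Function.Injective c := fun b b' h => by
    apply hD.r_inj
    have h1 : D.r b * D.r a = D.r b' * D.r a := by rw [hc, hc, h]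
    exact mul_right_cancel h1
  rw [E_apply, E_apply, ← (Equiv.ofBijective c (Finite.injective_iff_bijective.1 hinj)).sum_comp
    (fun b => ρ (D.r b) v)]
  refine Finset.sum_congr rfl fun b _ => ?_
  rw [← rho_mul, hc]; rfl

lemma z_E (v : V) : ρ D.z (D.E ρ v) = D.E ρ (ρ D.z v) := by
  rw [E_apply, E_apply, map_sum]
  refine Finset.sum_congr rfl fun b _ => ?_
  rw [← rho_mul, ← rho_mul, hD.z_comm]

lemma t_E (v : V) : ρ D.t (D.E ρ v) = D.E ρ (ρ D.t v) := by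
  choose c hc using hD.t_r
  have hinj : Function.Injective c := fun b b' h => by
    apply hD.r_inj
    have h1 : D.t * D.r b = D.t * D.r b' := by rw [hc, hc, h]
    exact mul_left_cancel h1
  rw [E_apply, E_apply, map_sum,
    ← (Equiv.ofBijective c (Finite.injective_iff_bijective.1 hinj)).sum_comp
    (fun b => ρ (D.r b) (ρ D.t v))]
  refine Finset.sum_congr rfl fun b _ => ?_
  rw [← rho_mul, hc, rho_mul]; rfl

lemma s_E (v : V) : ρ D.s (D.E ρ v) = D.E ρ (ρ D.s v) := by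
  choose c hc using hD.s_r
  have hinj : Function.Injective c := fun b b' h => by
    apply hD.r_inj
    have h1 : D.s * D.r b = D.s * D.r b' := by rw [hc, hc, h]
    exact mul_left_cancel h1
  rw [E_apply, E_apply, map_sum,
    ← (Equiv.ofBijective c (Finite.injective_iff_bijective.1 hinj)).sum_comp
    (fun b => ρ (D.r b) (ρ D.s v))]
  refine Finset.sum_congr rfl fun b _ => ?_
  rw [← rho_mul, hc, rho_mul]; rfl

lemma E_mem {v : V} (hv : ρ D.z v = -v) : D.E ρ v ∈ D.Vl ρ :=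
  ⟨fun a => r_E ρ hD a v, by rw [z_E ρ hD, hv, map_neg]⟩

lemma E_of_mem {v : V} (hv : v ∈ D.Vl ρ) : D.E ρ v = (16 : K) • v := by
  rw [E_apply, Finset.sum_congr rfl (fun a _ => hv.1 a), Finset.sum_const, Finset.card_univ,
    Fintype.card_fin, ← Nat.cast_smul_eq_nsmul K]
  norm_num

lemma t_mem {v : V} (hv : v ∈ D.Vl ρ) : ρ D.t v ∈ D.Vl ρ := by
  refine ⟨fun a => ?_, ?_⟩
  · choose c hc using hD.t_r
    have hinj : Function.Injective c := fun b b' h => by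
      apply hD.r_inj
      have h1 : D.t * D.r b = D.t * D.r b' := by rw [hc, hc, h]
      exact mul_left_cancel h1
    obtain ⟨b, rfl⟩ := (Finite.injective_iff_surjective.1 hinj) a
    rw [← rho_mul, ← hc, rho_mul, hv.1]
  · rw [← rho_mul, hD.z_comm, rho_mul, hv.2, map_neg]

lemma s_mem {v : V} (hv : v ∈ D.Vl ρ) : ρ D.s v ∈ D.Vl ρ := by
  refine ⟨fun a => ?_, ?_⟩
  · choose c hc using hD.s_r
    have hinj : Function.Injective c := fun b b' h => by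
      apply hD.r_inj
      have h1 : D.s * D.r b = D.s * D.r b' := by rw [hc, hc, h]
      exact mul_left_cancel h1
    obtain ⟨b, rfl⟩ := (Finite.injective_iff_surjective.1 hinj) a
    rw [← rho_mul, ← hc, rho_mul, hv.1]
  · rw [← rho_mul, hD.z_comm, rho_mul, hv.2, map_neg]

lemma Y_mem (j : Fin 3) {v : V} (hv : v ∈ D.Vl ρ) : D.E ρ (ρ (D.x j) v) ∈ D.Vl ρ := by
  apply E_mem ρ hD
  rw [← rho_mul, hD.z_comm, rho_mul, hv.2, map_neg]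

/-- `t` acting on `Vl` -/
def tM : Module.End K ↥(D.Vl ρ) := (ρ D.t).restrict (fun _ hv => t_mem ρ hD hv)

/-- `s` acting on `Vl` -/
def sM : Module.End K ↥(D.Vl ρ) := (ρ D.s).restrict (fun _ hv => s_mem ρ hD hv)

/-- the Hecke operator of `x j` on `Vl` -/
def YM (j : Fin 3) : Module.End K ↥(D.Vl ρ) :=
  ((D.E ρ) ∘ₗ (ρ (D.x j))).restrict (fun _ hv => Y_mem ρ hD j hv)

@[simp] lemma tM_coe (v : ↥(D.Vl ρ)) : ((tM ρ hD v : ↥(D.Vl ρ)) : V) = ρ D.t v := rfl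

@[simp] lemma sM_coe (v : ↥(D.Vl ρ)) : ((sM ρ hD v : ↥(D.Vl ρ)) : V) = ρ D.s v := rfl

@[simp] lemma YM_coe (j : Fin 3) (v : ↥(D.Vl ρ)) :
    ((YM ρ hD j v : ↥(D.Vl ρ)) : V) = D.E ρ (ρ (D.x j) v) := rfl

end Rep

end GPre

section HMod

variable {K : Type} [Field K] {M : Type} [AddCommGroup M] [Module K M]

/-- The relations between the operators `t`, `s`, `Y 0`, `Y 1`, `Y 2` on `Vl`. -/
structure HMod (t s : Module.End K M) (Y : Fin 3 → Module.End K M) : Prop where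
  t5 : t ^ 5 = 1
  ss : s * s = 1
  st : s * t = t ^ 4 * s
  sY0 : s * Y 0 = Y 0
  Y0s : Y 0 * s = Y 0
  sY1 : s * Y 1 = Y 1
  Y1s : Y 1 * s = Y 1
  sY2 : s * Y 2 = - Y 2
  Y2s : Y 2 * s = - Y 2
  r000 : Y 0 * Y 0 = 16 + 16 * s - 4 * Y 1
  r100 : Y 1 * Y 0 = - (4 * Y 0) - 4 * Y 1
  r101 : Y 1 * Y 1 = 16 + 16 * s - 4 * Y 0
  r202 : Y 2 * Y 2 = 16 - 16 * s - 4 * Y 2
  r010 : Y 0 * t * Y 0 = - ((t + t ^ 4) * Y 0 * (t + t ^ 4)) + (t + t ^ 4) * Y 1 * (t ^ 2 + t ^ 3)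
    + (t ^ 2 + t ^ 3) * Y 1 * (t + t ^ 4) + (t ^ 2 - t ^ 3) * Y 2 * (t ^ 2 - t ^ 3)
  r020 : Y 0 * t ^ 2 * Y 0 = - ((t ^ 2 + t ^ 3) * Y 0 * (t ^ 2 + t ^ 3))
    - (t + t ^ 4) * Y 1 * (t + t ^ 4)
    - (t - t ^ 4) * Y 2 * (t ^ 2 - t ^ 3) - (t ^ 2 - t ^ 3) * Y 2 * (t - t ^ 4)
  r110 : Y 1 * t * Y 0 = - ((t + t ^ 4) * Y 0 * (t ^ 2 + t ^ 3)) + (t ^ 2 + t ^ 3) * Y 0 * (t + t ^ 4)
    + (t ^ 2 + t ^ 3) * Y 1 * (t ^ 2 + t ^ 3) + (t - t ^ 4) * Y 2 * (t - t ^ 4)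
  r120 : Y 1 * t ^ 2 * Y 0 = (t + t ^ 4) * Y 0 * (t + t ^ 4) - (t + t ^ 4) * Y 1 * (t ^ 2 + t ^ 3)
    + (t ^ 2 + t ^ 3) * Y 1 * (t + t ^ 4) + (t ^ 2 - t ^ 3) * Y 2 * (t ^ 2 - t ^ 3)
  r210 : Y 2 * t * Y 0 = (t ^ 2 - t ^ 3) * Y 0 * (t ^ 2 + t ^ 3) - (t - t ^ 4) * Y 1 * (t + t ^ 4)
    - (t + t ^ 4) * Y 2 * (t ^ 2 - t ^ 3) + (t ^ 2 + t ^ 3) * Y 2 * (t - t ^ 4)
  r220 : Y 2 * t ^ 2 * Y 0 = (t - t ^ 4) * Y 0 * (t ^ 2 + t ^ 3) - (t ^ 2 - t ^ 3) * Y 0 * (t + t ^ 4)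
    - (t ^ 2 - t ^ 3) * Y 1 * (t ^ 2 + t ^ 3) - (t + t ^ 4) * Y 2 * (t - t ^ 4)

/-- The operator `32 + ∑_k t^k (Y₀² + Y₁² + Y₂²) t^{-k}`. -/
def Zop (t : Module.End K M) (Y : Fin 3 → Module.End K M) : Module.End K M :=
  32 + ∑ k ∈ Finset.range 5, t ^ k * (Y 0 * Y 0 + Y 1 * Y 1 + Y 2 * Y 2) * t ^ (4 * k)

/-- `u` generates the module: every subspace containing all `t^k s^e u` and all `t^k Y_j t^m u` is
everything. -/
def Gen (t s : Module.End K M) (Y : Fin 3 → Module.End K M) (u : M) : Prop :=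
  ∀ N : Submodule K M, (∀ k e : ℕ, (t ^ k * s ^ e) u ∈ N) →
    (∀ (k m : ℕ) (j : Fin 3), (t ^ k * Y j * t ^ m) u ∈ N) → N = ⊤

end HMod

end Pool.Agent.Helper79.TL
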