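import Pool.Agent.Helper79.TL.Grp2

/-!
# The relations of the generators (typed elements)
-/

set_option autoImplicit false
set_option maxRecDepth 100000

namespace Pool.Agent.Helper79.TL.G4

open Pool.Agent.Helper79.TL

/-- abbreviation -/
abbrev M6 := Matrix (Fin 6) (Fin 6) (ZMod 3)

lemma tp_val (k : ℕ) (hk : k < 5) : ((D0.t ^ k : U) : M6) = toM (ctp k) := by
  have h1 : ((D0.t : U) : M6) = toM ct := rfl
  rw [Units.val_pow_eq_pow_val, h1]
  have e2 : mulN ct ct = ctp 2 := by decide +kernel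
  have e3 : mulN (ctp 2) ct = ctp 3 := by decide +kernel
  have e4 : mulN (ctp 3) ct = ctp 4 := by decide +kernel
  have h2 : toM ct ^ 2 = toM (ctp 2) := by rw [← e2, toM_mulN, pow_two]
  have h3 : toM ct ^ 3 = toM (ctp 3) := by rw [pow_succ, h2, ← toM_mulN, e3]
  have h4 : toM ct ^ 4 = toM (ctp 4) := by rw [pow_succ, h3, ← toM_mulN, e4]
  interval_cases k
  · rw [pow_zero]; exact toM_cI.symm
  · rw [pow_one]; rfl
  · exact h2
  · exact h3
  · exact h4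

/-- code of `z ^ ε` -/
def czp (ε : ℕ) : ℕ := if ε = 0 then cI else cz

/-- code of `s ^ e` -/
def csp (e : ℕ) : ℕ := if e = 0 then cI else cs

lemma zp_val (ε : ℕ) (h : ε < 2) : ((D0.z ^ ε : U) : M6) = toM (czp ε) := by
  interval_cases ε
  · rw [pow_zero]; exact toM_cI.symm
  · rw [pow_one]; rfl

lemma sp_val (e : ℕ) (h : e < 2) : ((D0.s ^ e : U) : M6) = toM (csp e) := by
  interval_cases e
  · rw [pow_zero]; exact toM_cI.symm
  · rw [pow_one]; rfl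

/-- the check of a type with given witnesses -/
noncomputable def chk (c : ℕ) (a b : Fin 16) : Ty → Bool
  | .X ε k l n => Nat.ble (ε + 1) 2 && (Nat.ble (k + 1) 5 && (Nat.ble (n + 1) 5 &&
      Nat.beq c (mulN (mulN (mulN (mulN (mulN (czp ε) (cr a)) (ctp k)) (cx l)) (ctp n)) (cr b))))
  | .H ε k e => Nat.ble (ε + 1) 2 && (Nat.ble (k + 1) 5 && (Nat.ble (e + 1) 2 &&
      Nat.beq c (mulN (mulN (mulN (czp ε) (cr a)) (ctp k)) (csp e))))
  | .O => Nat.beq (mulN (cr a) c) (mulN c (mulN cz (cr b)))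

lemma r_val (a : Fin 16) : ((D0.r a : U) : M6) = toM (cr a) := rfl

lemma x_val (j : Fin 3) : ((D0.x j : U) : M6) = toM (cx j) := rfl

lemma z_val : ((D0.z : U) : M6) = toM cz := rfl

lemma s_val : ((D0.s : U) : M6) = toM cs := rfl

lemma w_val : ((D0.w : U) : M6) = toM cw := rfl

lemma is_of_chk (ty : Ty) (g : U) (c : ℕ) (hg : (g : M6) = toM c) (a b : Fin 16)
    (h : chk c a b ty = true) : D0.Is g ty := by
  cases ty with
  | X ε k l n =>
    simp only [chk, Bool.and_eq_true, Nat.ble_eq] at h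
    obtain ⟨h1, h2, h3, h4⟩ := h
    refine ⟨a, b, Units.ext ?_⟩
    rw [hg, Nat.eq_of_beq_eq_true h4]
    simp only [toM_mulN, Units.val_mul, zp_val ε h1, tp_val k h2, tp_val n h3, r_val, x_val]
  | H ε k e =>
    simp only [chk, Bool.and_eq_true, Nat.ble_eq] at h
    obtain ⟨h1, h2, h3, h4⟩ := h
    refine ⟨a, Units.ext ?_⟩
    rw [hg, Nat.eq_of_beq_eq_true h4]
    simp only [toM_mulN, Units.val_mul, zp_val ε h1, tp_val k h2, sp_val e h3, r_val]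
  | O =>
    simp only [chk] at h
    refine ⟨a, b, Units.ext ?_⟩
    have := congrArg toM (Nat.eq_of_beq_eq_true h)
    rw [toM_mulN, toM_mulN, toM_mulN] at this
    rw [Units.val_mul, Units.val_mul, Units.val_mul, hg, r_val, r_val, z_val]
    exact this

/-- witnesses -/
def WA000 : Fin 16 → Fin 16 := ![0, 10, 1, 6, 13, 5, 3, 7, 15, 9, 1, 11, 14, 4, 1, 8]

/-- witnesses -/
def WB000 : Fin 16 → Fin 16 := ![0, 10, 15, 6, 13, 5, 3, 7, 15, 9, 1, 11, 0, 4, 13, 8]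

lemma rel000 : ∀ m, D0.Is (D0.x 0 * D0.r m * D0.x 0) (T000 m) := by
  have key : ∀ m, chk (mulN (mulN (cx 0) (cr m)) (cx 0)) (WA000 m) (WB000 m) (T000 m) = true := by
    decide +kernel
  intro m
  refine is_of_chk _ _ _ ?_ _ _ (key m)
  simp only [toM_mulN, Units.val_mul, r_val, x_val]

/-- witnesses -/
def WA100 : Fin 16 → Fin 16 := ![8, 1, 4, 3, 9, 6, 5, 8, 7, 4, 11, 10, 8, 13, 4, 15]

/-- witnesses -/
def WB100 : Fin 16 → Fin 16 := ![7, 10, 11, 6, 13, 5, 3, 7, 15, 9, 1, 11, 11, 4, 7, 8]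

lemma rel100 : ∀ m, D0.Is (D0.x 1 * D0.r m * D0.x 0) (T100 m) := by
  have key : ∀ m, chk (mulN (mulN (cx 1) (cr m)) (cx 0)) (WA100 m) (WB100 m) (T100 m) = true := by
    decide +kernel
  intro m
  refine is_of_chk _ _ _ ?_ _ _ (key m)
  simp only [toM_mulN, Units.val_mul, r_val, x_val]

/-- witnesses -/
def WA101 : Fin 16 → Fin 16 := ![0, 1, 14, 3, 9, 6, 5, 8, 7, 4, 11, 10, 1, 13, 1, 15]

/-- witnesses -/
def WB101 : Fin 16 → Fin 16 := ![0, 1, 0, 3, 9, 6, 5, 8, 7, 4, 11, 10, 13, 13, 15, 15]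

lemma rel101 : ∀ m, D0.Is (D0.x 1 * D0.r m * D0.x 1) (T101 m) := by
  have key : ∀ m, chk (mulN (mulN (cx 1) (cr m)) (cx 1)) (WA101 m) (WB101 m) (T101 m) = true := by
    decide +kernel
  intro m
  refine is_of_chk _ _ _ ?_ _ _ (key m)
  simp only [toM_mulN, Units.val_mul, r_val, x_val]

/-- witnesses -/
def WA202 : Fin 16 → Fin 16 := ![0, 11, 1, 5, 4, 3, 6, 15, 8, 13, 10, 1, 1, 9, 14, 7]

/-- witnesses -/
def WB202 : Fin 16 → Fin 16 := ![0, 11, 13, 5, 4, 3, 6, 15, 8, 13, 10, 1, 15, 9, 0, 7]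

lemma rel202 : ∀ m, D0.Is (D0.x 2 * D0.r m * D0.x 2) (T202 m) := by
  have key : ∀ m, chk (mulN (mulN (cx 2) (cr m)) (cx 2)) (WA202 m) (WB202 m) (T202 m) = true := by
    decide +kernel
  intro m
  refine is_of_chk _ _ _ ?_ _ _ (key m)
  simp only [toM_mulN, Units.val_mul, r_val, x_val]

/-- witnesses -/
def WA010 : Fin 16 → Fin 16 := ![5, 6, 13, 13, 14, 6, 8, 1, 8, 1, 1, 5, 0, 12, 5, 6]

/-- witnesses -/
def WB010 : Fin 16 → Fin 16 := ![10, 9, 4, 13, 2, 10, 0, 12, 1, 1, 9, 13, 13, 4, 9, 10]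

lemma rel010 : ∀ m, D0.Is (D0.x 0 * D0.t ^ 1 * D0.r m * D0.x 0) (T010 m) := by
  have key : ∀ m, chk (mulN (mulN (mulN (cx 0) (ctp 1)) (cr m)) (cx 0)) (WA010 m) (WB010 m)
      (T010 m) = true := by
    decide +kernel
  intro m
  refine is_of_chk _ _ _ ?_ _ _ (key m)
  simp only [toM_mulN, Units.val_mul, r_val, x_val, tp_val 1 (by norm_num)]

/-- witnesses -/
def WA020 : Fin 16 → Fin 16 := ![15, 3, 0, 14, 3, 11, 2, 8, 2, 12, 9, 11, 0, 6, 9, 3]

/-- witnesses -/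
def WB020 : Fin 16 → Fin 16 := ![0, 15, 10, 7, 7, 2, 15, 4, 14, 3, 12, 15, 5, 12, 5, 14]

lemma rel020 : ∀ m, D0.Is (D0.x 0 * D0.t ^ 2 * D0.r m * D0.x 0) (T020 m) := by
  have key : ∀ m, chk (mulN (mulN (mulN (cx 0) (ctp 2)) (cr m)) (cx 0)) (WA020 m) (WB020 m)
      (T020 m) = true := by
    decide +kernel
  intro m
  refine is_of_chk _ _ _ ?_ _ _ (key m)
  simp only [toM_mulN, Units.val_mul, r_val, x_val, tp_val 2 (by norm_num)]

/-- witnesses -/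
def WA110 : Fin 16 → Fin 16 := ![5, 5, 10, 15, 3, 2, 0, 10, 0, 10, 4, 7, 3, 4, 5, 5]

/-- witnesses -/
def WB110 : Fin 16 → Fin 16 := ![10, 4, 4, 14, 13, 14, 1, 4, 12, 11, 10, 11, 13, 11, 9, 11]

lemma rel110 : ∀ m, D0.Is (D0.x 1 * D0.t ^ 1 * D0.r m * D0.x 0) (T110 m) := by
  have key : ∀ m, chk (mulN (mulN (mulN (cx 1) (ctp 1)) (cr m)) (cx 0)) (WA110 m) (WB110 m)
      (T110 m) = true := by
    decide +kernel
  intro m
  refine is_of_chk _ _ _ ?_ _ _ (key m)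
  simp only [toM_mulN, Units.val_mul, r_val, x_val, tp_val 1 (by norm_num)]

/-- witnesses -/
def WA120 : Fin 16 → Fin 16 := ![8, 6, 15, 15, 3, 11, 8, 14, 8, 3, 2, 11, 15, 0, 11, 6]

/-- witnesses -/
def WB120 : Fin 16 → Fin 16 := ![4, 15, 2, 7, 3, 7, 7, 3, 4, 10, 10, 4, 15, 12, 3, 14]

lemma rel120 : ∀ m, D0.Is (D0.x 1 * D0.t ^ 2 * D0.r m * D0.x 0) (T120 m) := by
  have key : ∀ m, chk (mulN (mulN (mulN (cx 1) (ctp 2)) (cr m)) (cx 0)) (WA120 m) (WB120 m)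
      (T120 m) = true := by
    decide +kernel
  intro m
  refine is_of_chk _ _ _ ?_ _ _ (key m)
  simp only [toM_mulN, Units.val_mul, r_val, x_val, tp_val 2 (by norm_num)]

/-- witnesses -/
def WA210 : Fin 16 → Fin 16 := ![9, 0, 14, 1, 4, 13, 1, 2, 1, 2, 12, 11, 10, 11, 9, 0]

/-- witnesses -/
def WB210 : Fin 16 → Fin 16 := ![1, 1, 13, 9, 2, 14, 0, 4, 1, 11, 9, 11, 10, 2, 12, 0]

lemma rel210 : ∀ m, D0.Is (D0.x 2 * D0.t ^ 1 * D0.r m * D0.x 0) (T210 m) := by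
  have key : ∀ m, chk (mulN (mulN (mulN (cx 2) (ctp 1)) (cr m)) (cx 0)) (WA210 m) (WB210 m)
      (T210 m) = true := by
    decide +kernel
  intro m
  refine is_of_chk _ _ _ ?_ _ _ (key m)
  simp only [toM_mulN, Units.val_mul, r_val, x_val, tp_val 1 (by norm_num)]

/-- witnesses -/
def WA220 : Fin 16 → Fin 16 := ![14, 12, 6, 8, 3, 9, 9, 15, 9, 6, 8, 9, 6, 15, 11, 12]

/-- witnesses -/
def WB220 : Fin 16 → Fin 16 := ![0, 2, 10, 4, 0, 7, 10, 3, 5, 10, 5, 4, 5, 3, 5, 15]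

lemma rel220 : ∀ m, D0.Is (D0.x 2 * D0.t ^ 2 * D0.r m * D0.x 0) (T220 m) := by
  have key : ∀ m, chk (mulN (mulN (mulN (cx 2) (ctp 2)) (cr m)) (cx 0)) (WA220 m) (WB220 m)
      (T220 m) = true := by
    decide +kernel
  intro m
  refine is_of_chk _ _ _ ?_ _ _ (key m)
  simp only [toM_mulN, Units.val_mul, r_val, x_val, tp_val 2 (by norm_num)]

lemma x_s : ∀ j, D0.Is (D0.x j * D0.s) (.X (if j = 2 then 1 else 0) 0 j 0) := by
  have key : ∀ j : Fin 3, chk (mulN (cx j) cs) ((![12, 2, 14] : Fin 3 → Fin 16) j) 14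
      (.X (if j = 2 then 1 else 0) 0 j 0) = true := by
    decide +kernel
  intro j
  refine is_of_chk _ _ _ ?_ _ _ (key j)
  rw [toM_mulN, Units.val_mul, x_val, s_val]

lemma w_O : ∀ k : Fin 5, D0.Is (D0.t ^ (k : ℕ) * D0.w) .O := by
  have key : ∀ k : Fin 5, chk (mulN (ctp k) cw) ((![1, 2, 4, 8, 1] : Fin 5 → Fin 16) k)
      ((![13, 7, 11, 15, 15] : Fin 5 → Fin 16) k) .O = true := by
    decide +kernel
  intro k
  refine is_of_chk _ _ _ ?_ _ _ (key k)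
  rw [toM_mulN, Units.val_mul, w_val, tp_val k k.2]

end Pool.Agent.Helper79.TL.G4
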