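import Pool.Agent.Helper79.TL.W4

/-!
# `DG` is good
-/

set_option autoImplicit false

open Module

namespace Pool.Agent.Helper79.TL

lemma DG_B (b : GPre.BI) : ((DG.B b : ↥GG) : U) = D0.B b := by
  rcases b with (_ | k) | ⟨j, k, i⟩
  · rfl
  · simp [GPre.B, DG]
  · simp [GPre.B, DG]

lemma DG_hel (p : GPre.HI) : ((DG.hel p : ↥GG) : U) = D0.hel p := by
  simp [GPre.hel, DG]

lemma DG_Is {g : ↥GG} {ty : Ty} (h : D0.Is (g : U) ty) : DG.Is g ty := by
  cases ty with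
  | H ε k e =>
    obtain ⟨a, ha⟩ := h
    exact ⟨a, Subtype.ext (by rw [ha]; simp [DG])⟩
  | X ε k l n =>
    obtain ⟨a, b, ha⟩ := h
    exact ⟨a, b, Subtype.ext (by rw [ha]; simp [DG])⟩
  | O =>
    obtain ⟨a, b, ha⟩ := h
    exact ⟨a, b, Subtype.ext (by simpa [DG] using ha)⟩

lemma goodPre_DG : GoodPre DG where
  z_comm g := Subtype.ext (goodPre_D0.z_comm g)
  z_sq := Subtype.ext goodPre_D0.z_sq
  r_zero := Subtype.ext goodPre_D0.r_zero
  r_inj a b h := goodPre_D0.r_inj (congrArg Subtype.val h)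
  r_mul a b := (goodPre_D0.r_mul a b).imp fun _ h => Subtype.ext h
  r_sq a := Subtype.ext (goodPre_D0.r_sq a)
  t_pow := Subtype.ext goodPre_D0.t_pow
  s_sq := Subtype.ext goodPre_D0.s_sq
  s_t := Subtype.ext goodPre_D0.s_t
  t_r a := (goodPre_D0.t_r a).imp fun _ h => Subtype.ext h
  s_r a := (goodPre_D0.s_r a).imp fun _ h => Subtype.ext h
  s_x j := by
    obtain ⟨a, b, h⟩ := goodPre_D0.s_x j
    exact ⟨a, b, Subtype.ext h⟩
  x_sq j := Subtype.ext (goodPre_D0.x_sq j)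
  x_s j := DG_Is (goodPre_D0.x_s j)
  w_O k := DG_Is (goodPre_D0.w_O k)
  rel000 m := DG_Is (goodPre_D0.rel000 m)
  rel100 m := DG_Is (goodPre_D0.rel100 m)
  rel101 m := DG_Is (goodPre_D0.rel101 m)
  rel202 m := DG_Is (goodPre_D0.rel202 m)
  rel010 m := DG_Is (goodPre_D0.rel010 m)
  rel020 m := DG_Is (goodPre_D0.rel020 m)
  rel110 m := DG_Is (goodPre_D0.rel110 m)
  rel120 m := DG_Is (goodPre_D0.rel120 m)
  rel210 m := DG_Is (goodPre_D0.rel210 m)
  rel220 m := DG_Is (goodPre_D0.rel220 m)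

theorem good_DG : DG.Good := by
  refine goodPre_DG.good ⟨fun p q h => inj0 ?_, fun g => ?_⟩
  · have := congrArg Subtype.val h
    simpa [DG_B, DG_hel] using this
  · obtain ⟨b, p, h⟩ := cover g g.2
    refine ⟨(b, p), Subtype.ext ?_⟩
    rw [h]
    simp [DG_B, DG_hel]

end Pool.Agent.Helper79.TL
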