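import Pool.Agent.Helper79.TL.Grp

/-!
# The group: definitions for the second part
-/

set_option autoImplicit false

open Module

namespace Pool.Agent.Helper79.TL

/-- All relations of `Good` except the bijectivity. -/
structure GoodPre {G : Type} [Group G] (D : GPre G) : Prop where
  z_comm : ∀ g, D.z * g = g * D.z
  z_sq : D.z * D.z = 1
  r_zero : D.r 0 = 1
  r_inj : Function.Injective D.r
  r_mul : ∀ a b, ∃ c, D.r a * D.r b = D.r c
  r_sq : ∀ a, D.r a * D.r a = 1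
  t_pow : D.t ^ 5 = 1
  s_sq : D.s * D.s = 1
  s_t : D.s * D.t = D.t ^ 4 * D.s
  t_r : ∀ a, ∃ b, D.t * D.r a = D.r b * D.t
  s_r : ∀ a, ∃ b, D.s * D.r a = D.r b * D.s
  s_x : ∀ j, ∃ a b, D.s * D.x j = D.r a * D.x j * D.r b * D.s
  x_sq : ∀ j, D.x j * D.x j = 1
  x_s : ∀ j, D.Is (D.x j * D.s) (.X (if j = 2 then 1 else 0) 0 j 0)
  w_O : ∀ k : Fin 5, D.Is (D.t ^ (k : ℕ) * D.w) .O
  rel000 : ∀ m, D.Is (D.x 0 * D.r m * D.x 0) (T000 m)
  rel100 : ∀ m, D.Is (D.x 1 * D.r m * D.x 0) (T100 m)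
  rel101 : ∀ m, D.Is (D.x 1 * D.r m * D.x 1) (T101 m)
  rel202 : ∀ m, D.Is (D.x 2 * D.r m * D.x 2) (T202 m)
  rel010 : ∀ m, D.Is (D.x 0 * D.t ^ 1 * D.r m * D.x 0) (T010 m)
  rel020 : ∀ m, D.Is (D.x 0 * D.t ^ 2 * D.r m * D.x 0) (T020 m)
  rel110 : ∀ m, D.Is (D.x 1 * D.t ^ 1 * D.r m * D.x 0) (T110 m)
  rel120 : ∀ m, D.Is (D.x 1 * D.t ^ 2 * D.r m * D.x 0) (T120 m)
  rel210 : ∀ m, D.Is (D.x 2 * D.t ^ 1 * D.r m * D.x 0) (T210 m)
  rel220 : ∀ m, D.Is (D.x 2 * D.t ^ 2 * D.r m * D.x 0) (T220 m)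

lemma GoodPre.good {G : Type} [Group G] {D : GPre G} (h : GoodPre D)
    (hb : Function.Bijective (fun p : GPre.BI × GPre.HI => D.B p.1 * D.hel p.2)) : D.Good where
  z_comm := h.z_comm
  z_sq := h.z_sq
  r_zero := h.r_zero
  r_inj := h.r_inj
  r_mul := h.r_mul
  r_sq := h.r_sq
  t_pow := h.t_pow
  s_sq := h.s_sq
  s_t := h.s_t
  t_r := h.t_r
  s_r := h.s_r
  s_x := h.s_x
  x_sq := h.x_sq
  x_s := h.x_s
  w_O := h.w_O
  rel000 := h.rel000
  rel100 := h.rel100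
  rel101 := h.rel101
  rel202 := h.rel202
  rel010 := h.rel010
  rel020 := h.rel020
  rel110 := h.rel110
  rel120 := h.rel120
  rel210 := h.rel210
  rel220 := h.rel220
  bij := hb

/-- number to index -/
def dB (n : ℕ) : GPre.BI :=
  if n = 0 then .inl none else if n < 6 then .inl (some (Fin.ofNat 5 (n - 1))) else
    .inr (Fin.ofNat 3 ((n - 6) / 40), Fin.ofNat 5 ((n - 6) / 8), Fin.ofNat 8 (n - 6))

/-- number to index -/
def dH (n : ℕ) : GPre.HI :=
  (Fin.ofNat 2 (n / 160), Fin.ofNat 16 (n / 10), Fin.ofNat 5 (n / 2), Fin.ofNat 2 n)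

lemma gen_mem (i : Fin 11) : genU i ∈ GG := Subgroup.subset_closure ⟨i, rfl⟩

lemma z_mem : D0.z ∈ GG := gen_mem 0

lemma t_mem' : D0.t ∈ GG := gen_mem 5

lemma s_mem' : D0.s ∈ GG := gen_mem 6

lemma w_mem' : D0.w ∈ GG := gen_mem 7

lemma x_mem' (j : Fin 3) : D0.x j ∈ GG := by
  fin_cases j
  · exact gen_mem 8
  · exact gen_mem 9
  · exact gen_mem 10

lemma U_ext {u v : U} (h : (u : Matrix (Fin 6) (Fin 6) (ZMod 3)) = v) : u = v := Units.ext h

lemma r_val (a : Fin 16) : ((D0.r a : U) : Matrix (Fin 6) (Fin 6) (ZMod 3)) = toM (cr a) := rfl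

lemma r_mul_code (a : Fin 16) : mulN (if (a : ℕ) / 1 % 2 = 1 then cr 1 else cI)
    (mulN (if (a : ℕ) / 2 % 2 = 1 then cr 2 else cI)
    (mulN (if (a : ℕ) / 4 % 2 = 1 then cr 4 else cI)
      (if (a : ℕ) / 8 % 2 = 1 then cr 8 else cI))) = cr a := by
  revert a; decide +kernel

lemma r_mem (a : Fin 16) : D0.r a ∈ GG := by
  have h1 : D0.r a = (if (a : ℕ) / 1 % 2 = 1 then D0.r 1 else 1) *
    ((if (a : ℕ) / 2 % 2 = 1 then D0.r 2 else 1) *
    ((if (a : ℕ) / 4 % 2 = 1 then D0.r 4 else 1) *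
      (if (a : ℕ) / 8 % 2 = 1 then D0.r 8 else 1))) := by
    apply U_ext
    rw [r_val, ← r_mul_code, toM_mulN, toM_mulN, toM_mulN, Units.val_mul, Units.val_mul,
      Units.val_mul]
    congr 1
    · split_ifs
      · rfl
      · rw [toM_cI]; rfl
    congr 1
    · split_ifs
      · rfl
      · rw [toM_cI]; rfl
    congr 1
    · split_ifs
      · rfl
      · rw [toM_cI]; rfl
    · split_ifs
      · rfl
      · rw [toM_cI]; rfl
  rw [h1]
  refine GG.mul_mem ?_ (GG.mul_mem ?_ (GG.mul_mem ?_ ?_))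
  · split_ifs
    · exact gen_mem 1
    · exact GG.one_mem
  · split_ifs
    · exact gen_mem 2
    · exact GG.one_mem
  · split_ifs
    · exact gen_mem 3
    · exact GG.one_mem
  · split_ifs
    · exact gen_mem 4
    · exact GG.one_mem

/-- the elements in the group `GG` -/
def DG : GPre ↥GG where
  z := ⟨D0.z, z_mem⟩
  r a := ⟨D0.r a, r_mem a⟩
  t := ⟨D0.t, t_mem'⟩
  s := ⟨D0.s, s_mem'⟩
  x j := ⟨D0.x j, x_mem' j⟩
  w := ⟨D0.w, w_mem'⟩

/-- the natural representation of `GG` over a field of characteristic 3 -/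
noncomputable def nat (F : Type) [Field F] [CharP F 3] : Representation F ↥GG (Fin 6 → F) where
  toFun g := Matrix.toLin' ((((g : U) : Matrix (Fin 6) (Fin 6) (ZMod 3))).map (ZMod.castHom (dvd_refl 3) F))
  map_one' := by
    rw [OneMemClass.coe_one, Units.val_one, Matrix.map_one _ (map_zero _) (map_one _),
      Matrix.toLin'_one]; rfl
  map_mul' g h := by
    rw [MulMemClass.coe_mul, Units.val_mul, Matrix.map_mul, Matrix.toLin'_mul]; rfl

end Pool.Agent.Helper79.TL
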