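import Mathlib

/-!
# Computing with 6 × 6 matrices over the field with 3 elements

A matrix is coded by a natural number whose base 3 digit number `6 i + j` is the entry `(i, j)`.
-/

set_option autoImplicit false

namespace Pool.Agent.Helper79.TL

/-- the number with base 3 digits `f 0, …, f (n - 1)` (modulo 3) -/
noncomputable def ds (f : ℕ → ℕ) (n : ℕ) : ℕ := Nat.rec 0 (fun k acc => acc + 3 ^ k * (f k % 3)) n

/-- the `k`-th base 3 digit -/
def en (n k : ℕ) : ℕ := n / 3 ^ k % 3

/-- product of coded matrices -/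
noncomputable def mulN (a b : ℕ) : ℕ := ds (fun k =>
  en a (6 * (k / 6)) * en b (k % 6) + en a (6 * (k / 6) + 1) * en b (6 + k % 6) +
  en a (6 * (k / 6) + 2) * en b (12 + k % 6) + en a (6 * (k / 6) + 3) * en b (18 + k % 6) +
  en a (6 * (k / 6) + 4) * en b (24 + k % 6) + en a (6 * (k / 6) + 5) * en b (30 + k % 6)) 36

lemma ds_zero (f : ℕ → ℕ) : ds f 0 = 0 := rfl

lemma ds_succ (f : ℕ → ℕ) (n : ℕ) : ds f (n + 1) = ds f n + 3 ^ n * (f n % 3) := rfl

lemma ds_lt (f : ℕ → ℕ) (n : ℕ) : ds f n < 3 ^ n := by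
  induction n with
  | zero => rw [ds_zero]; norm_num
  | succ n ih =>
    rw [ds_succ, pow_succ]
    have : f n % 3 ≤ 2 := by omega
    nlinarith [Nat.mul_le_mul_left (3 ^ n) this]

lemma en_ds (f : ℕ → ℕ) (n k : ℕ) (hk : k < n) : en (ds f n) k = f k % 3 := by
  induction n with
  | zero => omega
  | succ n ih =>
    rw [ds_succ, en]
    rcases Nat.lt_succ_iff_lt_or_eq.1 hk with h | h
    · have h1 : 3 ^ n = 3 ^ k * (3 * 3 ^ (n - k - 1)) := by
        rw [← pow_succ', ← pow_add]; congr 1; omega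
      rw [h1, mul_assoc (3 ^ k), Nat.add_mul_div_left _ _ (by positivity), mul_assoc 3,
        Nat.add_mul_mod_self_left]
      exact ih h
    · subst h
      rw [Nat.add_mul_div_left _ _ (by positivity), Nat.div_eq_of_lt (ds_lt f k), zero_add,
        Nat.mod_mod]

/-- the matrix with code `n` -/
def toM (n : ℕ) : Matrix (Fin 6) (Fin 6) (ZMod 3) := fun i j => (en n (6 * (i : ℕ) + j) : ZMod 3)

lemma cast_mod (n : ℕ) : ((n % 3 : ℕ) : ZMod 3) = n := ZMod.natCast_mod n 3

lemma toM_mulN (a b : ℕ) : toM (mulN a b) = toM a * toM b := by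
  ext i j
  have hi := i.2
  have hj := j.2
  have h1 : (6 * (i : ℕ) + j) / 6 = i := by omega
  have h2 : (6 * (i : ℕ) + j) % 6 = j := by omega
  rw [Matrix.mul_apply, Fin.sum_univ_six, toM, mulN, en_ds _ _ _ (by omega), cast_mod, h1, h2]
  simp only [toM]
  push_cast
  simp [mul_comm]

end Pool.Agent.Helper79.TL
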