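import Pool.Agent.Helper79.TL.Grp2

/-!
# The field with four elements, the 21 points of the projective plane over it, and the 21 frames
-/

set_option autoImplicit false

open Matrix
open scoped MatrixGroups

namespace Pool.Agent.Helper79.TL

/-- The field with four elements `0, 1, ω, ω²` (written `0, 1, 2, 3`). -/
def F4 : Type := Fin 4

namespace F4

instance : DecidableEq F4 := inferInstanceAs (DecidableEq (Fin 4))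

instance : Fintype F4 := inferInstanceAs (Fintype (Fin 4))

/-- the element with number `n` -/
def mk (n : Fin 4) : F4 := n

/-- addition -/
def add (a b : F4) : F4 :=
  (![![0, 1, 2, 3], ![1, 0, 3, 2], ![2, 3, 0, 1], ![3, 2, 1, 0]] : Fin 4 → Fin 4 → Fin 4) a b

/-- multiplication -/
def mul (a b : F4) : F4 :=
  (![![0, 0, 0, 0], ![0, 1, 2, 3], ![0, 2, 3, 1], ![0, 3, 1, 2]] : Fin 4 → Fin 4 → Fin 4) a b

/-- inverse -/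
def inv (a : F4) : F4 := (![0, 1, 3, 2] : Fin 4 → Fin 4) a

instance : Add F4 := ⟨add⟩

instance : Mul F4 := ⟨mul⟩

instance : Neg F4 := ⟨fun a => a⟩

instance : Zero F4 := ⟨mk 0⟩

instance : One F4 := ⟨mk 1⟩

instance : CommRing F4 where
  add_assoc := by decide
  zero_add := by decide
  add_zero := by decide
  add_comm := by decide
  neg_add_cancel := by decide
  mul_assoc := by decide
  one_mul := by decide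
  mul_one := by decide
  left_distrib := by decide
  right_distrib := by decide
  mul_comm := by decide
  zero_mul := by decide
  mul_zero := by decide
  nsmul := nsmulRec
  zsmul := zsmulRec

instance : Field F4 where
  inv := inv
  exists_pair_ne := ⟨mk 0, mk 1, by decide⟩
  mul_inv_cancel := by decide
  inv_zero := by decide
  nnqsmul := _
  nnqsmul_def := fun _ _ => rfl
  qsmul := _
  qsmul_def := fun _ _ => rfl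

/-- a primitive element -/
def om : F4 := mk 2

/-- its square -/
def om2 : F4 := mk 3

end F4

/-- matrices over `F4` given by numbers -/
def m4 (A : Matrix (Fin 3) (Fin 3) (Fin 4)) : Matrix (Fin 3) (Fin 3) F4 := fun i j => F4.mk (A i j)

/-- the 3 × 3 matrices of the generators -/
def AAm : Fin 11 → Matrix (Fin 3) (Fin 3) F4 :=
  ![m4 !![1, 0, 0; 0, 1, 0; 0, 0, 1],
    m4 !![3, 3, 1; 0, 3, 0; 0, 0, 3],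
    m4 !![1, 3, 2; 0, 1, 0; 0, 0, 1],
    m4 !![3, 2, 0; 0, 3, 0; 0, 0, 3],
    m4 !![1, 1, 1; 0, 1, 0; 0, 0, 1],
    m4 !![3, 3, 0; 0, 2, 3; 0, 3, 0],
    m4 !![3, 1, 3; 0, 2, 3; 0, 2, 2],
    m4 !![2, 1, 3; 0, 0, 1; 0, 3, 0],
    m4 !![3, 3, 0; 2, 3, 0; 3, 2, 2],
    m4 !![1, 0, 0; 3, 2, 2; 1, 1, 2],
    m4 !![1, 1, 1; 3, 3, 1; 1, 2, 0]]

lemma AAm_det (i : Fin 11) : (AAm i).det = 1 := by
  rw [Matrix.det_fin_three]; revert i; decide +kernel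

/-- the generators in `SL(3, F4)` -/
def AA (i : Fin 11) : SL(3, F4) := ⟨AAm i, AAm_det i⟩

/-- the scalar matrix `ω` in `SL(3, F4)` -/
def Sc : SL(3, F4) := ⟨m4 !![2, 0, 0; 0, 2, 0; 0, 0, 2], by
  rw [Matrix.det_fin_three]; decide +kernel⟩

/-- the 21 points of the projective plane over `F4` -/
def pt : Fin 21 → Fin 3 → F4 :=
  ![![F4.mk 1, F4.mk 0, F4.mk 0],
    ![F4.mk 0, F4.mk 1, F4.mk 0],
    ![F4.mk 0, F4.mk 0, F4.mk 1],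
    ![F4.mk 0, F4.mk 1, F4.mk 1],
    ![F4.mk 0, F4.mk 1, F4.mk 2],
    ![F4.mk 0, F4.mk 1, F4.mk 3],
    ![F4.mk 1, F4.mk 0, F4.mk 1],
    ![F4.mk 1, F4.mk 0, F4.mk 2],
    ![F4.mk 1, F4.mk 0, F4.mk 3],
    ![F4.mk 1, F4.mk 1, F4.mk 0],
    ![F4.mk 1, F4.mk 1, F4.mk 1],
    ![F4.mk 1, F4.mk 1, F4.mk 2],
    ![F4.mk 1, F4.mk 1, F4.mk 3],
    ![F4.mk 1, F4.mk 2, F4.mk 0],
    ![F4.mk 1, F4.mk 2, F4.mk 1],
    ![F4.mk 1, F4.mk 2, F4.mk 2],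
    ![F4.mk 1, F4.mk 2, F4.mk 3],
    ![F4.mk 1, F4.mk 3, F4.mk 0],
    ![F4.mk 1, F4.mk 3, F4.mk 1],
    ![F4.mk 1, F4.mk 3, F4.mk 2],
    ![F4.mk 1, F4.mk 3, F4.mk 3]]

/-- the 21 frames: six vectors each, up to sign -/
def fr : Fin 21 → Fin 6 → Fin 6 → ZMod 3 :=
  ![![![1, 0, 0, 0, 0, 0], ![0, 1, 0, 0, 0, 0], ![0, 0, 1, 0, 0, 0],
      ![0, 0, 0, 1, 0, 0], ![0, 0, 0, 0, 1, 0], ![0, 0, 0, 0, 0, 1]],
    ![![1, 1, 1, 1, 0, 0], ![1, -1, -1, 1, 0, 0], ![1, 0, 0, -1, 1, 1],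
      ![1, 0, 0, -1, -1, -1], ![0, 1, -1, 0, 1, -1], ![0, 1, -1, 0, -1, 1]],
    ![![1, 1, 1, 0, 1, 0], ![1, 1, -1, 0, -1, 0], ![1, -1, 0, 1, 0, -1],
      ![1, -1, 0, -1, 0, 1], ![0, 0, 1, 1, -1, 1], ![0, 0, 1, -1, -1, -1]],
    ![![1, 1, 1, 0, 0, 1], ![1, -1, 1, 0, 0, -1], ![1, 0, -1, 1, -1, 0],
      ![1, 0, -1, -1, 1, 0], ![0, 1, 0, 1, 1, -1], ![0, 1, 0, -1, -1, -1]],
    ![![1, 1, 0, 0, 1, -1], ![1, -1, 0, 0, -1, -1], ![1, 0, 1, -1, 0, 1],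
      ![1, 0, -1, 1, 0, 1], ![0, 1, 1, 1, -1, 0], ![0, 1, -1, -1, -1, 0]],
    ![![1, 1, 0, -1, 1, 0], ![1, -1, 0, 1, 1, 0], ![1, 0, 1, 0, -1, 1],
      ![1, 0, -1, 0, -1, -1], ![0, 1, 1, 1, 0, -1], ![0, 1, -1, 1, 0, 1]],
    ![![1, 1, 1, 0, -1, 0], ![1, 1, -1, 0, 1, 0], ![1, -1, 0, 1, 0, 1],
      ![1, -1, 0, -1, 0, -1], ![0, 0, 1, 1, 1, -1], ![0, 0, 1, -1, 1, 1]],
    ![![1, -1, 1, 0, 1, 0], ![1, -1, -1, 0, -1, 0], ![1, 1, 0, 1, 0, 1],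
      ![1, 1, 0, -1, 0, -1], ![0, 0, 1, 1, -1, -1], ![0, 0, 1, -1, -1, 1]],
    ![![1, -1, 1, 0, -1, 0], ![1, -1, -1, 0, 1, 0], ![1, 1, 0, 1, 0, -1],
      ![1, 1, 0, -1, 0, 1], ![0, 0, 1, 1, 1, 1], ![0, 0, 1, -1, 1, -1]],
    ![![1, 1, 1, -1, 0, 0], ![1, -1, -1, -1, 0, 0], ![1, 0, 0, 1, 1, -1],
      ![1, 0, 0, 1, -1, 1], ![0, 1, -1, 0, 1, 1], ![0, 1, -1, 0, -1, -1]],
    ![![1, 1, 1, 0, 0, -1], ![1, -1, 1, 0, 0, 1], ![1, 0, -1, 1, 1, 0],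
      ![1, 0, -1, -1, -1, 0], ![0, 1, 0, 1, -1, 1], ![0, 1, 0, -1, 1, 1]],
    ![![1, 1, 0, 0, 1, 1], ![1, -1, 0, 0, -1, 1], ![1, 0, 1, 1, 0, -1],
      ![1, 0, -1, -1, 0, -1], ![0, 1, 1, -1, -1, 0], ![0, 1, -1, 1, -1, 0]],
    ![![1, 1, 0, 1, 1, 0], ![1, -1, 0, -1, 1, 0], ![1, 0, 1, 0, -1, -1],
      ![1, 0, -1, 0, -1, 1], ![0, 1, 1, -1, 0, 1], ![0, 1, -1, -1, 0, -1]],
    ![![1, 1, -1, 1, 0, 0], ![1, -1, 1, 1, 0, 0], ![1, 0, 0, -1, 1, -1],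
      ![1, 0, 0, -1, -1, 1], ![0, 1, 1, 0, 1, 1], ![0, 1, 1, 0, -1, -1]],
    ![![1, 1, 0, -1, -1, 0], ![1, -1, 0, 1, -1, 0], ![1, 0, 1, 0, 1, -1],
      ![1, 0, -1, 0, 1, 1], ![0, 1, 1, 1, 0, 1], ![0, 1, -1, 1, 0, -1]],
    ![![1, 1, -1, 0, 0, 1], ![1, -1, -1, 0, 0, -1], ![1, 0, 1, 1, 1, 0],
      ![1, 0, 1, -1, -1, 0], ![0, 1, 0, 1, -1, -1], ![0, 1, 0, -1, 1, -1]],
    ![![1, 1, 0, 0, -1, -1], ![1, -1, 0, 0, 1, -1], ![1, 0, 1, 1, 0, 1],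
      ![1, 0, -1, -1, 0, 1], ![0, 1, 1, -1, 1, 0], ![0, 1, -1, 1, 1, 0]],
    ![![1, 1, -1, -1, 0, 0], ![1, -1, 1, -1, 0, 0], ![1, 0, 0, 1, 1, 1],
      ![1, 0, 0, 1, -1, -1], ![0, 1, 1, 0, 1, -1], ![0, 1, 1, 0, -1, 1]],
    ![![1, 1, 0, 0, -1, 1], ![1, -1, 0, 0, 1, 1], ![1, 0, 1, -1, 0, -1],
      ![1, 0, -1, 1, 0, -1], ![0, 1, 1, 1, 1, 0], ![0, 1, -1, -1, 1, 0]],
    ![![1, 1, 0, 1, -1, 0], ![1, -1, 0, -1, -1, 0], ![1, 0, 1, 0, 1, 1],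
      ![1, 0, -1, 0, 1, -1], ![0, 1, 1, -1, 0, -1], ![0, 1, -1, -1, 0, 1]],
    ![![1, 1, -1, 0, 0, -1], ![1, -1, -1, 0, 0, 1], ![1, 0, 1, 1, -1, 0],
      ![1, 0, 1, -1, 1, 0], ![0, 1, 0, 1, 1, 1], ![0, 1, 0, -1, -1, 1]]]

/-- the permutations of the generators on the 21 points and frames -/
def sgf : Fin 11 → Fin 21 → Fin 21 :=
  ![![0, 1, 2, 3, 4, 5, 6, 7, 8, 9, 10, 11, 12, 13, 14, 15, 16, 17, 18, 19, 20],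
    ![0, 9, 8, 15, 18, 5, 7, 6, 2, 1, 20, 16, 12, 17, 14, 3, 11, 13, 4, 19, 10],
    ![0, 13, 8, 10, 4, 19, 7, 6, 2, 17, 3, 11, 14, 1, 12, 20, 16, 9, 18, 5, 15],
    ![0, 13, 2, 15, 16, 14, 6, 7, 8, 17, 20, 18, 19, 1, 5, 3, 4, 9, 11, 12, 10],
    ![0, 9, 6, 3, 16, 19, 2, 8, 7, 1, 10, 18, 14, 17, 12, 15, 4, 13, 11, 5, 20],
    ![0, 18, 1, 14, 10, 6, 9, 13, 17, 4, 5, 3, 2, 16, 8, 12, 20, 11, 15, 7, 19],
    ![0, 15, 12, 17, 4, 6, 5, 19, 14, 10, 9, 11, 2, 20, 8, 1, 16, 3, 18, 7, 13],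
    ![0, 8, 13, 19, 4, 10, 9, 17, 1, 6, 5, 11, 20, 2, 15, 14, 16, 7, 18, 3, 12],
    ![18, 12, 2, 9, 11, 10, 19, 17, 20, 3, 5, 4, 1, 13, 14, 15, 16, 7, 0, 6, 8],
    ![18, 5, 3, 2, 4, 1, 12, 7, 13, 9, 19, 16, 6, 8, 14, 17, 11, 15, 0, 10, 20],
    ![18, 19, 9, 3, 16, 6, 5, 15, 8, 2, 12, 11, 10, 20, 14, 7, 4, 17, 0, 1, 13]]

/-- the inverse permutations -/
def sgi : Fin 11 → Fin 21 → Fin 21 :=
  ![![0, 1, 2, 3, 4, 5, 6, 7, 8, 9, 10, 11, 12, 13, 14, 15, 16, 17, 18, 19, 20],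
    ![0, 9, 8, 15, 18, 5, 7, 6, 2, 1, 20, 16, 12, 17, 14, 3, 11, 13, 4, 19, 10],
    ![0, 13, 8, 10, 4, 19, 7, 6, 2, 17, 3, 11, 14, 1, 12, 20, 16, 9, 18, 5, 15],
    ![0, 13, 2, 15, 16, 14, 6, 7, 8, 17, 20, 18, 19, 1, 5, 3, 4, 9, 11, 12, 10],
    ![0, 9, 6, 3, 16, 19, 2, 8, 7, 1, 10, 18, 14, 17, 12, 15, 4, 13, 11, 5, 20],
    ![0, 2, 12, 11, 9, 10, 5, 19, 14, 6, 4, 17, 15, 7, 3, 18, 13, 8, 1, 20, 16],
    ![0, 15, 12, 17, 4, 6, 5, 19, 14, 10, 9, 11, 2, 20, 8, 1, 16, 3, 18, 7, 13],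
    ![0, 8, 13, 19, 4, 10, 9, 17, 1, 6, 5, 11, 20, 2, 15, 14, 16, 7, 18, 3, 12],
    ![18, 12, 2, 9, 11, 10, 19, 17, 20, 3, 5, 4, 1, 13, 14, 15, 16, 7, 0, 6, 8],
    ![18, 5, 3, 2, 4, 1, 12, 7, 13, 9, 19, 16, 6, 8, 14, 17, 11, 15, 0, 10, 20],
    ![18, 19, 9, 3, 16, 6, 5, 15, 8, 2, 12, 11, 10, 20, 14, 7, 4, 17, 0, 1, 13]]

lemma sg_inv1 : ∀ (i : Fin 11) (a : Fin 21), sgi i (sgf i a) = a := by decide +kernel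

lemma sg_inv2 : ∀ (i : Fin 11) (a : Fin 21), sgf i (sgi i a) = a := by decide +kernel

/-- the permutations of the generators -/
def sg (i : Fin 11) : Equiv.Perm (Fin 21) := ⟨sgf i, sgi i, sg_inv1 i, sg_inv2 i⟩

/-- `(A, g, σ)` is compatible: `A` permutes the points by `σ`, `g` permutes the frames by `σ` -/
def Compat (A : SL(3, F4)) (g : U) (σ : Equiv.Perm (Fin 21)) : Prop :=
  (∀ i, ∃ c : F4, c ≠ 0 ∧ (A : Matrix (Fin 3) (Fin 3) F4) *ᵥ pt i = c • pt (σ i)) ∧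
  (∀ i k, ∃ k', (g : Matrix (Fin 6) (Fin 6) (ZMod 3)) *ᵥ fr i k = fr (σ i) k' ∨
    (g : Matrix (Fin 6) (Fin 6) (ZMod 3)) *ᵥ fr i k = -fr (σ i) k')

/-- the group of triples generated by the generators and the scalar -/
def EE : Subgroup (SL(3, F4) × U × Equiv.Perm (Fin 21)) :=
  Subgroup.closure (Set.range (fun i => (AA i, genU i, sg i)) ∪ {(Sc, 1, 1)})

end Pool.Agent.Helper79.TL
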