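import Pool.Agent.Helper79.TL.W4

/-!
# Triples with scalar first component
-/

set_option autoImplicit false

open Module Matrix
open scoped MatrixGroups

namespace Pool.Agent.Helper79.TL.S2

lemma pt_inj : ∀ (i j : Fin 21) (r c : F4), r ≠ 0 → (∀ k, r * pt i k = c * pt j k) → i = j := by
  decide +kernel

lemma exists_ones : ∃ i, ∀ k, pt i k = 1 := by decide +kernel

lemma pt0 : ∀ k, pt 0 k = if k = 0 then 1 else 0 := by decide +kernel

lemma pt1 : ∀ k, pt 1 k = if k = 1 then 1 else 0 := by decide +kernel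

lemma pt2 : ∀ k, pt 2 k = if k = 2 then 1 else 0 := by decide +kernel

theorem center_iff : ∀ x ∈ EE, x.1 ∈ Subgroup.center SL(3, F4) ↔ x.2.2 = 1 := by
  intro x hx
  obtain ⟨hc, -⟩ := compat_EE x hx
  rw [Matrix.SpecialLinearGroup.mem_center_iff]
  constructor
  · rintro ⟨r, hr, hA⟩
    have hr0 : r ≠ 0 := by
      rintro rfl
      simp at hr
    ext i
    congr 1
    obtain ⟨c, hc0, h⟩ := hc i
    refine (pt_inj i (x.2.2 i) r c hr0 fun k => ?_).symm
    have h1 := congrFun h k
    rw [← hA] at h1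
    simpa [Matrix.mulVec_diagonal] using h1
  · intro hσ
    have hfix : ∀ i, ∃ c : F4, ∀ k, (x.1 : Matrix (Fin 3) (Fin 3) F4) k 0 * pt i 0 +
        (x.1 : Matrix (Fin 3) (Fin 3) F4) k 1 * pt i 1 +
        (x.1 : Matrix (Fin 3) (Fin 3) F4) k 2 * pt i 2 = c * pt i k := by
      intro i
      obtain ⟨c, -, h⟩ := hc i
      refine ⟨c, fun k => ?_⟩
      have h1 := congrFun h k
      rw [hσ] at h1
      simpa [Matrix.mulVec, dotProduct, Fin.sum_univ_three] using h1
    obtain ⟨c0, h0⟩ := hfix 0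
    obtain ⟨c1, h1⟩ := hfix 1
    obtain ⟨c2, h2⟩ := hfix 2
    obtain ⟨j, hj⟩ := exists_ones
    obtain ⟨c3, h3⟩ := hfix j
    simp only [pt0, pt1, pt2, hj] at h0 h1 h2 h3
    have a00 := h0 0
    have a10 := h0 1
    have a20 := h0 2
    have a01 := h1 0
    have a11 := h1 1
    have a21 := h1 2
    have a02 := h2 0
    have a12 := h2 1
    have a22 := h2 2
    have b0 := h3 0
    have b1 := h3 1
    have b2 := h3 2
    simp at a00 a10 a20 a01 a11 a21 a02 a12 a22 b0 b1 b2
    set A : Matrix (Fin 3) (Fin 3) F4 := (x.1 : Matrix (Fin 3) (Fin 3) F4) with hAdef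
    have hA : A = Matrix.scalar (Fin 3) c3 := by
      ext i k
      fin_cases i <;> fin_cases k <;> simp_all
    have hdet : A.det = 1 := x.1.2
    refine ⟨c3, ?_, hA.symm⟩
    rw [hA] at hdet
    simpa using hdet

end Pool.Agent.Helper79.TL.S2
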