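import Pool.Agent.Helper79.TL.G7
import Pool.Agent.Helper79.TLP.S3
import Pool.Agent.Helper51.TL.P2
import Pool.Agent.Helper46.TL.P1
import Pool.Agent.Helper8.TL.G9

/-!
# The group `GG` is a double cover of `PSL(3, 4)`
-/

set_option autoImplicit false

open Module Matrix
open scoped MatrixGroups
open Pool.Agent.Helper31.Brauer

namespace Pool.Agent.Helper79.TL

/-- the first component on `EE` -/
def alphaE : ↥EE →* SL(3, F4) := (MonoidHom.fst SL(3, F4) (U × Equiv.Perm (Fin 21))).comp EE.subtype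

/-- the second component on `EE` -/
def betaE : ↥EE →* ↥GG := (prU.comp EE.subtype).codRestrict GG (fun x => EE_mem_GG.1 x x.2)

lemma alphaE_apply (x : ↥EE) : alphaE x = (x : SL(3, F4) × U × Equiv.Perm (Fin 21)).1 := rfl

lemma betaE_coe (x : ↥EE) :
    ((betaE x : ↥GG) : U) = (x : SL(3, F4) × U × Equiv.Perm (Fin 21)).2.1 := rfl

lemma z_ne_one : DG.z ≠ 1 := by
  intro h
  have h1 : ((DG.z : ↥GG) : U) = 1 := congrArg Subtype.val h
  have h2 : ((D0.z : U) : Matrix (Fin 6) (Fin 6) (ZMod 3)) = 1 := congrArg Units.val h1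
  have h3 : toM cz = 1 := h2
  have h4 := congrFun (congrFun h3 0) 0
  revert h4
  decide +kernel

theorem GG_psl_of
    (center_iff : ∀ x ∈ EE, x.1 ∈ Subgroup.center SL(3, F4) ↔ x.2.2 = 1) :
    Nonempty (↥GG ⧸ Subgroup.center ↥GG ≃* PSL(3, F4)) ∧ IsQuasisimple ↥GG ∧
    Nat.card ↥(Subgroup.center ↥GG) = 2 := by
  have hzc : DG.z ∈ Subgroup.center ↥GG :=
    Subgroup.mem_center_iff.2 fun g => (goodPre_DG.z_comm g).symm
  obtain ⟨h1, h2, h3⟩ := P2.iso_of_data_of (P1.psl3_perfect F4) (P1.psl3_simple F4) alphaE betaE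
    (fun A => by
      obtain ⟨x, hx, rfl⟩ := alpha_surj A
      exact ⟨⟨x, hx⟩, rfl⟩)
    (fun g => by
      obtain ⟨x, hx, hg⟩ := EE_mem_GG.2 g g.2
      exact ⟨⟨x, hx⟩, Subtype.ext hg⟩)
    DG.z hzc
    (fun x => by
      rw [alphaE_apply, center_iff x x.2, S3.one_or_z_iff x x.2]
      constructor
      · rintro (h | h)
        · exact Or.inl (Subtype.ext h)
        · exact Or.inr (Subtype.ext h)
      · rintro (h | h)
        · exact Or.inl (congrArg Subtype.val h)
        · exact Or.inr (congrArg Subtype.val h))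
    G9.z_mem_commutator
  refine ⟨h1, h2, ?_⟩
  have hs : (Subgroup.center ↥GG : Set ↥GG) = {1, DG.z} := by
    ext g
    constructor
    · intro hg
      rcases h3 g hg with h | h
      · exact Or.inl h
      · exact Or.inr h
    · rintro (h | h)
      · rw [h]; exact Subgroup.one_mem _
      · rw [Set.mem_singleton_iff.1 h]; exact hzc
  have hc : Nat.card ↥(Subgroup.center ↥GG) = (Subgroup.center ↥GG : Set ↥GG).ncard := rfl
  rw [hc, hs, Set.ncard_pair z_ne_one.symm]

end Pool.Agent.Helper79.TL
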